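import Pool.Agent.MP_c1891a_nt.G43.Spec

/-
The limit of a sequence of anomalous curves.
-/

namespace Pool.Agent.MP_c1891a_nt.G43

open Finset Filter Module

namespace Str

/-- the ultrafilter. -/
noncomputable abbrev UU : Filter ℕ := (hyperfilter ℕ : Filter ℕ)

/-- the ultrapower of a field. -/
def Ul (K : Type) [Field K] : Type := Germ UU K

section

variable {K L : Type} [Field K] [Field L]

noncomputable instance : Field (Ul K) := inferInstanceAs (Field (Germ UU K))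

/-- the germ of a sequence. -/
noncomputable def gm : (ℕ → K) →+* Ul K := Germ.coeRingHom UU

theorem gm_eq {f g : ℕ → K} : gm f = gm g ↔ ∀ᶠ k in UU, f k = g k := Germ.coe_eq

theorem gm_zero {f : ℕ → K} : gm f = 0 ↔ ∀ᶠ k in UU, f k = 0 := by
  rw [← map_zero gm, gm_eq]
  rfl

theorem gm_surj (x : Ul K) : ∃ f, gm f = x := Quot.exists_rep x

/-- a map acts on germs. -/
noncomputable def mp (f : K → L) : Ul K → Ul L := Germ.map f

theorem mp_gm (f : K → L) (a : ℕ → K) : mp f (gm a) = gm fun n => f (a n) := rfl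

/-- a homomorphism acts on germs. -/
noncomputable def mpR (f : K →+* L) : Ul K →+* Ul L where
  toFun := mp f
  map_one' := by
    rw [← map_one gm, mp_gm, ← map_one gm]
    exact congrArg gm (funext fun _ => map_one f)
  map_zero' := by
    rw [← map_zero gm, mp_gm, ← map_zero gm]
    exact congrArg gm (funext fun _ => map_zero f)
  map_mul' x y := by
    obtain ⟨a, rfl⟩ := gm_surj x
    obtain ⟨b, rfl⟩ := gm_surj y
    rw [← map_mul, mp_gm, mp_gm, mp_gm, ← map_mul]
    exact congrArg gm (funext fun _ => map_mul f _ _)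
  map_add' x y := by
    obtain ⟨a, rfl⟩ := gm_surj x
    obtain ⟨b, rfl⟩ := gm_surj y
    rw [← map_add, mp_gm, mp_gm, mp_gm, ← map_add]
    exact congrArg gm (funext fun _ => map_add f _ _)

end

noncomputable instance : Algebra ℂ (Ul ℂ) := (gm.comp (Pi.constRingHom ℕ ℂ)).toAlgebra

noncomputable instance : Algebra (Ul ℂ) (Ul FF) := (mpR (algebraMap ℂ FF)).toAlgebra

noncomputable instance : Algebra ℂ (Ul FF) :=
  (gm.comp ((Pi.constRingHom ℕ FF).comp (algebraMap ℂ FF))).toAlgebra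

instance : IsScalarTower ℂ (Ul ℂ) (Ul FF) := .of_algebraMap_eq fun _ => rfl

instance : CharZero (Ul ℂ) := charZero_of_injective_algebraMap (algebraMap ℂ (Ul ℂ)).injective

theorem am_gm (a : ℕ → ℂ) : algebraMap (Ul ℂ) (Ul FF) (gm a) = gm fun n => algebraMap ℂ FF (a n) :=
  rfl

theorem sm_gm (a : ℕ → ℂ) (f : ℕ → FF) : gm a • gm f = gm fun n => a n • f n := by
  rw [Algebra.smul_def, am_gm, ← map_mul]
  exact congrArg gm (funext fun n => (Algebra.smul_def (a n) (f n)).symm)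

/-- the derivation acts on germs. -/
noncomputable def dd (D : Derivation ℂ FF FF) : Derivation (Ul ℂ) (Ul FF) (Ul FF) :=
  .mk'
    { toFun := mp D
      map_add' := fun x y => by
        obtain ⟨a, rfl⟩ := gm_surj x
        obtain ⟨b, rfl⟩ := gm_surj y
        rw [← map_add, mp_gm, mp_gm, mp_gm, ← map_add]
        exact congrArg gm (funext fun _ => map_add D _ _)
      map_smul' := fun x y => by
        obtain ⟨a, rfl⟩ := gm_surj x
        obtain ⟨b, rfl⟩ := gm_surj y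
        rw [RingHom.id_apply, sm_gm, mp_gm, mp_gm, sm_gm]
        exact congrArg gm (funext fun _ => D.map_smul _ _) }
    fun x y => by
      obtain ⟨a, rfl⟩ := gm_surj x
      obtain ⟨b, rfl⟩ := gm_surj y
      show mp D (gm a * gm b) = gm a * mp D (gm b) + gm b * mp D (gm a)
      rw [← map_mul, mp_gm, mp_gm, mp_gm, ← map_mul, ← map_mul, ← map_add]
      exact congrArg gm (funext fun _ => D.leibniz _ _)

theorem dd_gm (D : Derivation ℂ FF FF) (a : ℕ → FF) : dd D (gm a) = gm fun n => D (a n) := rfl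

theorem dlog (D : Derivation ℂ FF FF) (h1 : D tt = 1) (ht : tt ≠ 0) {p : FF} (hp : p ≠ 0) (c : ℂ)
    (a b : ℤ) : D (algebraMap ℂ FF c * p ^ a * tt ^ b) =
      algebraMap ℂ FF c * p ^ a * tt ^ b * ((a : ℂ) • (D p / p) + (b : ℂ) • tt⁻¹) := by
  simp only [D.leibniz, D.leibniz_zpow, D.map_algebraMap, h1, smul_eq_mul, Int.cast_smul_eq_zsmul,
    zsmul_eq_mul, zpow_sub_one₀ hp, zpow_sub_one₀ ht]
  field_simp
  ring

theorem indep (h2 : SRos) (hT : Transcendental ℂ tt) (D : Derivation ℂ FF FF) (h1 : D tt = 1)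
    (hc : ∀ f, D f = 0 → f ∈ Set.range (algebraMap ℂ FF))
    (hδ : ∀ (δ : Derivation ℂ FF FF) (f : FF), δ f = δ tt * D f) {p : FF} (hp : p ≠ 0)
    (hi : ∀ a b : ℤ, (a ≠ 0 ∨ b ≠ 0) → p ^ a * tt ^ b ∉ Set.range (algebraMap ℂ FF)) (s t : ℂ)
    (h : s • (D p / p) + t • tt⁻¹ = 0) : s = 0 ∧ t = 0 := by
  have ht : tt ≠ 0 := fun h => hT (h ▸ isAlgebraic_zero)
  by_cases hl : LinearIndependent ℤ ![s, t]
  · refine (hT ((h2 ℂ FF (Fin 2) ![s, t] ![p, tt] 0
      ((LinearIndependent.iff_fractionRing ℤ ℚ).1 hl) ?_ fun δ => ?_).1 1)).elim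
    · exact Fin.forall_fin_two.2 ⟨hp, ht⟩
    · rw [map_zero, Fin.sum_univ_two, ← mul_zero (δ tt), ← h]
      simp only [Matrix.cons_val_zero, Matrix.cons_val_one, hδ δ p, Algebra.smul_def]
      ring
  · rw [LinearIndependent.pair_iff] at hl
    push Not at hl
    obtain ⟨A, B, hAB, h0⟩ := hl
    have hne : (B : ℂ) • (D p / p) + ((-A : ℤ) : ℂ) • tt⁻¹ ≠ 0 := fun h3 => by
      refine hi B (-A) (by by_contra h; push Not at h; exact h0 (by omega) h.1) (hc _ ?_)
      have := dlog D h1 ht hp 1 B (-A)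
      rwa [h3, mul_zero, map_one, one_mul] at this
    have e := congrArg (algebraMap ℂ FF) hAB
    simp only [Algebra.smul_def, map_add, map_mul, map_intCast, map_zero, eq_intCast,
      Int.cast_neg, map_neg] at e h hne
    refine ⟨(map_eq_zero (algebraMap ℂ FF)).1 ((mul_eq_zero.1 ?_).resolve_right hne),
      (map_eq_zero (algebraMap ℂ FF)).1 ((mul_eq_zero.1 ?_).resolve_right hne)⟩
    · linear_combination (B : FF) * h - tt⁻¹ * e
    · linear_combination (D p / p) * e - (A : FF) * h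

variable {Λ : Type} [AddCommGroup Λ]

theorem fix_det [Module.Free ℤ Λ] [Module.Finite ℤ Λ] (v w : ℕ → Λ →ₗ[ℤ] ℤ)
    (h : ∀ n, ∃ l l', v n l * w n l' ≠ v n l' * w n l) :
    ∃ l l', ∀ᶠ n in UU, v n l * w n l' ≠ v n l' * w n l := by
  let b := Module.Free.chooseBasis ℤ Λ
  have : ∀ n, ∃ q : _ × _, v n (b q.1) * w n (b q.2) ≠ v n (b q.2) * w n (b q.1) := fun n => by
    by_contra hn
    push Not at hn
    obtain ⟨l, l', hl⟩ := h n
    have e : (LinearMap.mul ℤ ℤ).compl₁₂ (v n) (w n) =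
        ((LinearMap.mul ℤ ℤ).compl₁₂ (v n) (w n)).flip :=
      LinearMap.ext_basis b b fun i j => hn (i, j)
    exact hl (LinearMap.congr_fun₂ e l l')
  obtain ⟨q, hq⟩ := (Ultrafilter.eventually_exists_iff (f := hyperfilter ℕ)).1 (.of_forall this)
  exact ⟨_, _, hq⟩

/-- the lattice of the bounded relations. -/
def rel {S : Sys Λ} (D : ℕ → AnD S) : Submodule ℤ Λ :=
  AddSubgroup.toIntSubmodule
    { carrier := {l | ∃ s : ℕ, 0 < s ∧ ∀ᶠ n in UU,
        (D n).v l = 0 ∧ (D n).w l = 0 ∧ (D n).η l ^ s = 1}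
      zero_mem' := ⟨1, one_pos, .of_forall fun n => by simp⟩
      add_mem' := by
        rintro a b ⟨s, hs, ha⟩ ⟨t, ht, hb⟩
        refine ⟨s * t, mul_pos hs ht, (ha.and hb).mono fun n ⟨h, h'⟩ => ?_⟩
        rw [map_add, map_add, AddChar.map_add_eq_mul, mul_pow, pow_mul, h.2.2, mul_comm s, pow_mul,
          h'.2.2, h.1, h.2.1, h'.1, h'.2.1]
        simp
      neg_mem' := by
        rintro a ⟨s, hs, ha⟩
        refine ⟨s, hs, ha.mono fun n h => ?_⟩
        rw [map_neg, map_neg, AddChar.map_neg_eq_inv, inv_pow, h.1, h.2.1, h.2.2]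
        simp }

theorem mem_rel {S : Sys Λ} {D : ℕ → AnD S} {l : Λ} : l ∈ rel D ↔ ∃ s : ℕ, 0 < s ∧ ∀ᶠ n in UU,
    (D n).v l = 0 ∧ (D n).w l = 0 ∧ (D n).η l ^ s = 1 := Iff.rfl

theorem exists_ind [Module.Finite ℤ Λ] {L M : Submodule ℤ Λ} (h : L ≤ M) :
    ∃ (r : ℕ) (z : Fin r → Λ), finrank ℤ M = r + finrank ℤ L ∧ (∀ k, z k ∈ M) ∧
      ∀ c : Fin r → ℤ, ∑ k, c k • z k ∈ L → ∀ k, c k = 0 := by
  obtain ⟨f, hf⟩ := exists_linearIndependent_of_le_finrank
    (le_refl (finrank ℤ (M ⧸ L.comap M.subtype)))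
  choose z hz using fun k => (L.comap M.subtype).mkQ_surjective (f k)
  refine ⟨_, fun k => z k, ?_, fun k => (z k).2, fun c hc => ?_⟩
  · rw [← (L.comap M.subtype).finrank_quotient_add_finrank,
      (Submodule.comapSubtypeEquivOfLe h).finrank_eq]
  · refine Fintype.linearIndependent_iff.1 hf c ?_
    simp only [← hz, ← map_smul, ← map_sum]
    refine (Submodule.Quotient.mk_eq_zero _).2 ?_
    simpa only [Submodule.mem_comap, map_sum, map_smul, Submodule.subtype_apply] using hc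

theorem tor_ind (h4 : SMann) {S : Sys Λ} (D : ℕ → AnD S) {r : ℕ} (z : Fin r → Λ)
    (hz : ∀ k, ∀ᶠ n in UU, (D n).v (z k) = 0 ∧ (D n).w (z k) = 0)
    (hi : ∀ c : Fin r → ℤ, ∑ k, c k • z k ∈ rel D → ∀ k, c k = 0) :
    AlgebraicIndependent ℂ fun k => gm fun n => (D n).η (z k) := by
  refine algebraicIndependent_iff.2 fun P hP => ?_
  by_contra h0
  let m : (Fin r →₀ ℕ) → Λ := fun μ => ∑ k, μ k • z k
  have hm : ∀ n μ, (D n).η (m μ) = ∏ k, (D n).η (z k) ^ μ k := fun n μ => by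
    simp only [m, ← AddChar.map_nsmul_eq_pow]
    exact map_prod (D n).η.toMonoidHom (fun k => Multiplicative.ofAdd (μ k • z k)) univ
  obtain ⟨B, hB⟩ := h4 _ P.support (fun μ => P.coeff μ) (by
    obtain ⟨μ, hμ⟩ := MvPolynomial.support_nonempty.2 h0
    exact ⟨μ, hμ, MvPolynomial.mem_support_iff.1 hμ⟩)
  have e : MvPolynomial.aeval (fun k => gm fun n => (D n).η (z k)) P =
      gm fun n => ∑ μ ∈ P.support, P.coeff μ * (D n).η (m μ) := by
    rw [MvPolynomial.aeval_def, MvPolynomial.eval₂_eq', ← Finset.sum_fn, map_sum]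
    refine sum_congr rfl fun μ _ => ?_
    simp only [hm, ← map_pow, ← map_prod]
    refine (map_mul gm (fun _ => P.coeff μ) _).symm.trans (congrArg gm (funext fun n => ?_))
    simp only [Pi.mul_apply, Finset.prod_apply, Pi.pow_apply]
  rw [e, gm_zero] at hP
  have h1 : ∀ᶠ n in UU, ∃ q ∈ ((P.support ×ˢ P.support ×ˢ Ioc 0 B : Finset _) :
      Set ((Fin r →₀ ℕ) × (Fin r →₀ ℕ) × ℕ)),
      q.1 ≠ q.2.1 ∧ (D n).η (m q.1) ^ q.2.2 = (D n).η (m q.2.1) ^ q.2.2 := hP.mono fun n hn => by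
    obtain ⟨s, hs, hs'⟩ := isOfFinOrder_iff_pow_eq_one.1 (D n).tor
    obtain ⟨i, hi, k, hk, hik, s, hs0, hsB, h⟩ := hB (fun μ => (D n).η (m μ))
      (fun μ _ => ⟨s, hs, by rw [← AddChar.pow_apply, hs', AddChar.one_apply]⟩) hn
    exact ⟨(i, k, s), by simp only [mem_coe, mem_product, mem_Ioc]; exact ⟨hi, hk, hs0, hsB⟩,
      hik, h⟩
  obtain ⟨⟨i, k, s⟩, hq, h2⟩ := (Ultrafilter.eventually_exists_mem_iff (f := hyperfilter ℕ)
    (Finset.finite_toSet _)).1 h1
  simp only [mem_coe, mem_product, mem_Ioc] at hq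
  refine h2.exists.choose_spec.1 (Finsupp.ext fun j => ?_)
  have := hi (fun j => (i j : ℤ) - k j) (mem_rel.2 ⟨s, hq.2.2.1, ?_⟩) j
  · show i j = k j
    omega
  filter_upwards [h2, eventually_all.2 hz] with n hn hv
  refine ⟨by simp [hv], by simp [hv], ?_⟩
  simp only [sub_smul, natCast_zsmul, sum_sub_distrib]
  rw [AddChar.map_sub_eq_div, div_pow]
  refine (div_eq_one_iff_eq (pow_ne_zero _ ?_)).2 hn.2
  exact ((D n).η.val_isUnit _).ne_zero

/-- an additive map to the ultrapower. -/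
noncomputable def lim (v : ℕ → Λ →ₗ[ℤ] ℤ) : Λ →+ Ul ℂ :=
  .mk' (fun l => gm fun n => (v n l : ℂ)) fun a b => by
    rw [← map_add]
    exact congrArg gm (funext fun n => by simp)

theorem lim_zero {v : ℕ → Λ →ₗ[ℤ] ℤ} {l : Λ} : lim v l = 0 ↔ ∀ᶠ n in UU, v n l = 0 :=
  gm_zero.trans (by simp only [Int.cast_eq_zero])

end Str

open Str in
theorem sStr (h1 : SFF) (h2 : SRos) (h3 : SAx) (h4 : SMann) : SStr := by
  intro Λ _ _ _ S D
  obtain ⟨hT, d, hd1, hc, hδ⟩ := h1
  have ht : tt ≠ 0 := fun h => hT (h ▸ isAlgebraic_zero)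
  let x : AddChar Λ (Ul FF) :=
    { toFun := fun l => gm fun n => (D n).x l
      map_zero_eq_one' := by
        rw [← map_one gm]
        exact congrArg gm (funext fun n => (D n).x.map_zero_eq_one)
      map_add_eq_mul' := fun a b => by
        rw [← map_mul]
        exact congrArg gm (funext fun n => (D n).x.map_add_eq_mul a b) }
  have hx : ∀ l, x l = gm fun n => (D n).x l := fun _ => rfl
  let v := lim fun n => (D n).v
  let w := lim fun n => (D n).w
  let M : Submodule ℤ Λ := LinearMap.ker v.toIntLinearMap ⊓ LinearMap.ker w.toIntLinearMap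
  have hM : ∀ l, l ∈ M ↔ v l = 0 ∧ w l = 0 := fun _ => Iff.rfl
  have hM' : ∀ l, l ∈ M ↔ ∀ᶠ n in UU, (D n).v l = 0 ∧ (D n).w l = 0 := fun l => by
    rw [hM, eventually_and, lim_zero, lim_zero]
  have hxM : ∀ l ∈ M, x l = algebraMap (Ul ℂ) (Ul FF) (gm fun n => (D n).η l) := fun l hl => by
    rw [hx, am_gm, gm_eq]
    exact ((hM' l).1 hl).mono fun n hn => by simp [(D n).eq, hn.1, hn.2]
  have hLM : rel D ≤ M := fun l hl => by
    obtain ⟨s, -, h⟩ := mem_rel.1 hl
    exact (hM' l).2 (h.mono fun n hn => ⟨hn.1, hn.2.1⟩)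
  obtain ⟨t, l, hr, hl⟩ := h3 (Ul ℂ) (Ul FF) Λ (dd d) x v w (gm fun n => d (D n).p / (D n).p)
    (gm fun _ => tt⁻¹) M
    (fun f hf => by
      obtain ⟨a, rfl⟩ := gm_surj f
      rw [dd_gm, gm_zero] at hf
      exact ⟨gm fun n => Function.invFun (algebraMap ℂ FF) (a n),
        gm_eq.2 (hf.mono fun n hn => Function.invFun_eq (hc _ hn))⟩)
    (fun s t h => by
      obtain ⟨a, rfl⟩ := gm_surj s
      obtain ⟨b, rfl⟩ := gm_surj t
      rw [sm_gm, sm_gm, ← map_add, gm_zero] at h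
      rw [gm_zero, gm_zero, ← eventually_and]
      exact h.mono fun n hn => indep h2 hT d hd1 hc hδ (D n).ne (D n).ind _ _ hn)
    (fun l => by
      show dd d (gm _) = gm _ * (gm _ • gm _ + gm _ • gm _)
      rw [dd_gm, sm_gm, sm_gm, ← map_add, ← map_mul]
      refine congrArg gm (funext fun n => ?_)
      simp only [Pi.mul_apply, Pi.add_apply, (D n).eq]
      exact dlog d hd1 ht (D n).ne _ _ _)
    (by
      obtain ⟨l, l', h⟩ := fix_det (fun n => (D n).v) (fun n => (D n).w) fun n => (D n).det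
      refine ⟨l, l', fun e => ?_⟩
      have e' : gm _ * gm _ = gm _ * gm _ := e
      rw [← map_mul, ← map_mul, gm_eq] at e'
      obtain ⟨n, hn, hn'⟩ := (h.and e').exists
      simp only [Pi.mul_apply] at hn'
      exact hn (by exact_mod_cast hn'))
    hM
  obtain ⟨r, z, hrk, hz, hi⟩ := exists_ind hLM
  have hy := (tor_ind h4 D z (fun k => (hM' _).1 (hz k)) hi).sumElim_comp hl
  refine ⟨Ul FF, inferInstance, inferInstance, x, rel D, t + r, fun j => ?_,
    ⟨Sum.elim l z ∘ finSumFinEquiv.symm, ?_⟩, by omega, fun l hl => ?_, fun T hT => ?_⟩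
  · have e : S.cs x j = gm fun n => S.cs (D n).x j := by
      unfold Sys.cs
      rw [← Finset.sum_fn, map_sum]
      exact sum_congr rfl fun i _ => (map_mul gm (fun _ => algebraMap ℂ FF (S.c i)) _).symm
    rw [e, gm_zero]
    exact .of_forall fun n => (D n).zero j
  · have e : (fun k => x (Sum.elim l z k)) = Sum.elim (fun k => x (l k))
        (algebraMap (Ul ℂ) (Ul FF) ∘ fun k => gm fun n => (D n).η (z k)) :=
      funext fun k => by
        rcases k with k | k
        · rfl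
        · exact hxM _ (hz k)
    exact (e ▸ hy).comp _ finSumFinEquiv.symm.injective
  · obtain ⟨s, hs, h⟩ := mem_rel.1 hl
    refine IsAlgebraic.of_pow hs ?_
    have e : gm (fun n => (D n).η l) ^ s = 1 := by
      rw [← map_pow, ← map_one gm, gm_eq]
      exact h.mono fun n hn => hn.2.2
    rw [hxM l (hLM hl), ← map_pow, e, map_one]
    exact isAlgebraic_one
  · choose! s hs h using fun l hl => mem_rel.1 (hT l hl)
    refine ⟨∏ l ∈ T, s l, prod_pos hs, fun n₀ => ?_⟩
    obtain ⟨n, hn, hn'⟩ := (((eventually_ge_atTop n₀).filter_mono Nat.hyperfilter_le_atTop).and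
      ((eventually_all_finset T).2 h)).exists
    refine ⟨n, hn, fun l hl => ⟨(hn' l hl).1, (hn' l hl).2.1, ?_⟩⟩
    obtain ⟨c, hc⟩ := dvd_prod_of_mem s hl
    rw [hc, pow_mul, (hn' l hl).2.2, one_pow]

end Pool.Agent.MP_c1891a_nt.G43
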